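import Pool.Agent.TSP.Fin

/-!
Let `X` be a normal, countably paracompact manifold with a countable `T₁`-separating open cover which is not
metrizable. Then `𝔭 ≤ ℵ₁` or `𝔟 ≤ ℵ₂`. No bound on the weight of `X` is assumed.

Since `𝔭 ≤ 𝔟`, in every model of `𝔭 > ℵ₂` (for instance `MA + 𝔠 > ℵ₂`) all normal countably paracompact manifolds with
a countable `T₁`-separating open cover are metrizable.
-/

open Set Topology TopologicalSpace

open scoped Cardinal

namespace Pool.Agent.Results.MP_f7ba30_gt.NonDowker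

universe u

open Pool.Agent.TSP in
theorem result {n : ℕ} {X : Type u} [TopologicalSpace X] [T2Space X] [NormalSpace X]
    [ChartedSpace (EuclideanSpace ℝ (Fin n)) X]
    (hcp : ∀ u : ℕ → Set X, (∀ n, IsOpen (u n)) → ⋃ n, u n = univ →
      ∃ (β : Type u) (v : β → Set X), (∀ b, IsOpen (v b)) ∧ ⋃ b, v b = univ ∧ LocallyFinite v ∧
        ∀ b, ∃ n, v b ⊆ u n)
    (𝒰 : Set (Set X)) (hcount : 𝒰.Countable)
    (hopen : ∀ U ∈ 𝒰, IsOpen U) (_hcover : ⋃₀ 𝒰 = univ)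
    (hsep : ∀ x y : X, x ≠ y → ∃ U ∈ 𝒰, x ∈ U ∧ y ∉ U)
    (hX : ¬ MetrizableSpace X) : pNum ≤ Cardinal.aleph 1 ∨ bNum ≤ Cardinal.aleph 2 := by
  by_contra hne
  rw [not_or, not_le, not_le] at hne
  have := Pool.Agent.TSC.Mfd_lc (X := X) n
  have := Pool.Agent.TSC.Mfd_lcn (X := X) n
  obtain ⟨U, hU1, hU2, -⟩ := Pool.Agent.TSC.Mfd_cover hcount hopen hsep
  exact hX (metrizable_cp (Pool.Agent.TSC.Mfd_hl n) hcp hU1 hU2 hne.1 hne.2)

end Pool.Agent.Results.MP_f7ba30_gt.NonDowker
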