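import Pool.Agent.TSP.Fin

/-!
Let `X` be a manifold with a countable `T₁`-separating open cover such that `X × M` is normal for every subset `M` of
the Cantor set `{0,1}^ℕ` with at most `ℵ₁` elements. Then `X` is metrizable.
-/

open Set Topology TopologicalSpace

open scoped Cardinal

namespace Pool.Agent.Results.MP_f7ba30_gt.NormalProducts

universe u

open Pool.Agent.TSP in
theorem result {n : ℕ} {X : Type u} [TopologicalSpace X] [T2Space X]
    [ChartedSpace (EuclideanSpace ℝ (Fin n)) X]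
    (𝒰 : Set (Set X)) (hcount : 𝒰.Countable)
    (hopen : ∀ U ∈ 𝒰, IsOpen U) (_hcover : ⋃₀ 𝒰 = univ)
    (hsep : ∀ x y : X, x ≠ y → ∃ U ∈ 𝒰, x ∈ U ∧ y ∉ U)
    (hprod : ∀ M : Set (ℕ → Bool), #M ≤ Cardinal.aleph 1 → NormalSpace (X × M)) : MetrizableSpace X := by
  have h1 := Pool.Agent.TSC.Mfd_lc (X := X) n
  have h2 := Pool.Agent.TSC.Mfd_lcn (X := X) n
  obtain ⟨U, hU1, hU2, -⟩ := Pool.Agent.TSC.Mfd_cover hcount hopen hsep
  refine metrizable_of_reflect (Pool.Agent.TSC.Mfd_hl n) fun W x x₀ hW _ => ?_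
  refine lemProd (Pool.Agent.TSC.Mfd_hl n) hU1 hU2 x (hprod _ ?_)
  exact Cardinal.mk_range_le.trans hW.le

end Pool.Agent.Results.MP_f7ba30_gt.NormalProducts
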