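import Pool.Agent.TSC.Mfd
import Pool.Agent.TSC.Small

/-!
Let `X` be a normal, countably paracompact manifold with a countable `T₁`-separating open cover `𝒰` and `H` a closed
subset of `X`. Suppose that for every `U ∈ 𝒰` there is an open set `V` such that all closed subsets of `X` which are
contained in `H ∩ V` are metrizable, and such that the rest `(H ∩ U) \ V` is contained in the union of countably many
closed subsets of `X` contained in `U`. Then `H` has an open metrizable neighbourhood; in particular (`H = X`) `X` is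
metrizable.

Corollary: every closed nonmetrizable subset of `X` contains two disjoint closed nonmetrizable subsets.
-/

open Set Topology TopologicalSpace

namespace Pool.Agent.Results.MP_f7ba30_gt.ThinOrFsigma

universe u

theorem result {n : ℕ} {X : Type u} [TopologicalSpace X] [T2Space X] [NormalSpace X]
    [ChartedSpace (EuclideanSpace ℝ (Fin n)) X]
    (hcp : ∀ u : ℕ → Set X, (∀ n, IsOpen (u n)) → ⋃ n, u n = univ →
      ∃ (β : Type u) (v : β → Set X), (∀ b, IsOpen (v b)) ∧ ⋃ b, v b = univ ∧ LocallyFinite v ∧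
        ∀ b, ∃ n, v b ⊆ u n)
    (𝒰 : Set (Set X)) (hcount : 𝒰.Countable)
    (hopen : ∀ U ∈ 𝒰, IsOpen U) (_hcover : ⋃₀ 𝒰 = univ)
    (hsep : ∀ x y : X, x ≠ y → ∃ U ∈ 𝒰, x ∈ U ∧ y ∉ U)
    (H : Set X) (hH : IsClosed H)
    (hV : ∀ U ∈ 𝒰, ∃ V : Set X, IsOpen V ∧
      (∀ F : Set X, IsClosed F → F ⊆ H ∩ V → MetrizableSpace F) ∧
      ∃ P : ℕ → Set X, (∀ j, IsClosed (P j)) ∧ (∀ j, P j ⊆ U) ∧ (H ∩ U) \ V ⊆ ⋃ j, P j) :
    ∃ O : Set X, IsOpen O ∧ H ⊆ O ∧ MetrizableSpace O := by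
  have := Pool.Agent.TSC.Mfd_lc (X := X) n
  have := Pool.Agent.TSC.Mfd_lcn (X := X) n
  obtain ⟨U, hU1, hU2, hU3⟩ := Pool.Agent.TSC.Mfd_cover hcount hopen hsep
  refine Pool.Agent.TSC.mt_small (Pool.Agent.TSC.Mfd_hl n) hU1 hU2 hcp hH fun k => ?_
  rcases hU3 (U k) ⟨k, rfl⟩ with h1 | h1
  · refine ⟨∅, isOpen_empty, fun F _ hF => ?_, fun _ => ∅, fun _ => isClosed_empty,
      fun _ => empty_subset _, ?_⟩
    · refine Pool.Agent.TSC.mt_empty.mono ?_
      rw [inter_empty] at hF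
      exact hF
    · rw [h1, inter_empty]
      simp
  · obtain ⟨V, hV1, hV2, P, hP1, hP2, hP3⟩ := hV (U k) h1
    exact ⟨V, hV1, fun F hF1 hF2 => Pool.Agent.TSC.mt_of_closed (Pool.Agent.TSC.Mfd_hl n) hU1 hU2 hF1
      (hV2 F hF1 hF2), P, hP1, hP2, hP3⟩

end Pool.Agent.Results.MP_f7ba30_gt.ThinOrFsigma
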