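import Pool.Agent.TSP.Fin

/-!
Let `X` be a normal manifold with a countable `T₁`-separating open cover which is not metrizable. If `X` is covered by
a family of σ-compact sets (for instance of open sets homeomorphic to Euclidean space) indexed by `ι`, then
`𝔭 ≤ #ι`. So the weight of `X` is at least the pseudo-intersection number `𝔭`.
-/

open Set Topology TopologicalSpace

open scoped Cardinal

namespace Pool.Agent.Results.MP_f7ba30_gt.WeightAtLeastP

universe u

open Pool.Agent.TSP in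
theorem result {n : ℕ} {X : Type u} [TopologicalSpace X] [T2Space X] [NormalSpace X]
    [ChartedSpace (EuclideanSpace ℝ (Fin n)) X]
    (𝒰 : Set (Set X)) (hcount : 𝒰.Countable)
    (hopen : ∀ U ∈ 𝒰, IsOpen U) (_hcover : ⋃₀ 𝒰 = univ)
    (hsep : ∀ x y : X, x ≠ y → ∃ U ∈ 𝒰, x ∈ U ∧ y ∉ U)
    (hX : ¬ MetrizableSpace X) {ι : Type u} (V : ι → Set X) (hV : ∀ i, IsSigmaCompact (V i))
    (hcov : ⋃ i, V i = univ) : Cardinal.lift.{u} pNum ≤ #ι := by
  have h1 := Pool.Agent.TSC.Mfd_lc (X := X) n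
  have h2 := Pool.Agent.TSC.Mfd_lcn (X := X) n
  obtain ⟨U, hU1, hU2, -⟩ := Pool.Agent.TSC.Mfd_cover hcount hopen hsep
  by_contra hlt
  rw [not_le] at hlt
  choose K hK1 hK2 using hV
  by_cases hι : Countable ι
  · -- `X` is σ-compact
    apply hX
    have h3 : IsSigmaCompact (univ : Set X) := by
      rw [← hcov]
      exact isSigmaCompact_iUnion _ (fun i => ⟨K i, hK1 i, hK2 i⟩)
    have h4 : SigmaCompactSpace X := isSigmaCompact_univ_iff.1 h3
    have h5 : SecondCountableTopology X :=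
      ChartedSpace.secondCountable_of_sigmaCompact (EuclideanSpace ℝ (Fin n)) X
    exact metrizableSpace_of_t3_secondCountable X
  · obtain ⟨κ, hκ⟩ := Cardinal.mem_range_lift_of_le hlt.le
    have h6 : κ < pNum := by
      rw [← Cardinal.lift_lt.{0, u}, hκ]
      exact hlt
    have h7 : Cardinal.aleph 1 ≤ κ := by
      have h8 : ℵ₀ < #ι := by
        rw [← not_le, Cardinal.mk_le_aleph0_iff]
        exact hι
      rw [← hκ, ← Cardinal.lift_aleph0.{u, 0}, Cardinal.lift_lt] at h8
      rw [← zero_add (1 : Ordinal), ← Cardinal.succ_aleph, Cardinal.aleph_zero]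
      exact Order.succ_le_of_lt h8
    refine hX (metrizable_of_compact_cover.{u, u} (Pool.Agent.TSC.Mfd_hl n) hU1 hU2 h7 h6
      fun x₀ => ⟨ι × ℕ, fun p => K p.1 p.2, ?_, fun p => hK1 _ _, ?_⟩)
    · have h9 : ℵ₀ ≤ Cardinal.lift.{u} κ := by
        rw [hκ]
        exact (not_le.1 fun h => hι (Cardinal.mk_le_aleph0_iff.1 h)).le
      rw [Cardinal.mk_prod, Cardinal.lift_uzero, ← hκ]
      simp only [Cardinal.mk_nat, Cardinal.lift_aleph0]
      exact (Cardinal.mul_le_max_of_aleph0_le_left h9).trans (max_le le_rfl h9)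
    · intro x _
      have h10 : x ∈ ⋃ i, V i := by rw [hcov]; trivial
      obtain ⟨i, hi⟩ := mem_iUnion.1 h10
      rw [← hK2 i] at hi
      obtain ⟨m, hm⟩ := mem_iUnion.1 hi
      exact mem_iUnion.2 ⟨(i, m), hm⟩

end Pool.Agent.Results.MP_f7ba30_gt.WeightAtLeastP
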